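import Pool.Agent.N290.RM.Stm

/-!
# Project RM, part TLV (helper526): tails for radial weights
-/

set_option autoImplicit false

open Complex MeasureTheory Set Filter Topology
open scoped ENNReal

namespace Pool.Agent.N526.RM

open Pool.Agent.N290.RJ Pool.Agent.N290.RK Pool.Agent.N290.RL Pool.Agent.N290.RM

theorem ker_nn {d : ℕ} (z w : E d) : 0 ≤ ker z w := by
  unfold Pool.Agent.N290.RJ.ker
  positivity

/-- the tail at one point -/
noncomputable def I (d : ℕ) (ω : ℝ → ℝ) (κ : ℝ) (z : E d) : ℝ≥0∞ :=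
  ∫⁻ w in B d, ENNReal.ofReal ((if 1 - N w ≤ κ then ω (1 - N w) ^ 2 else 0) * ker z w)

theorem I_mono (d : ℕ) (ω : ℝ → ℝ) (z : E d) : Monotone fun κ => I d ω κ z := by
  intro κ κ' h
  refine lintegral_mono fun w => ENNReal.ofReal_le_ofReal ?_
  refine mul_le_mul_of_nonneg_right ?_ (ker_nn z w)
  by_cases h1 : 1 - N w ≤ κ
  · rw [if_pos h1, if_pos (h1.trans h)]
  · rw [if_neg h1]
    split_ifs
    · exact sq_nonneg _
    · exact le_refl _

theorem TLV_of (d : ℕ) (hT : TL d) (h9 : C9 d) : TLV d := by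
  intro K ω hK hS hfin
  obtain ⟨C, hC, h9⟩ := h9
  set M : ℝ≥0∞ := ENNReal.ofReal C *
    (1 + ∫⁻ t in Ioo (0 : ℝ) 1, ENNReal.ofReal (ω t ^ 2 / t)) with hM
  have hMt : M ≠ ⊤ := ENNReal.mul_ne_top ENNReal.ofReal_ne_top
    (ENNReal.add_ne_top.2 ⟨ENNReal.one_ne_top, hfin⟩)
  have hb : ∀ κ : ℝ, ∀ z ∈ B d, I d ω κ z ≤ M := by
    intro κ z hz
    have h1 := h9 (fun t => ω t ^ 2)
      (fun s t hst => pow_le_pow_left₀ (hS.2.1 s).1 (hS.1 hst) 2)
      (fun t => sq_nonneg _)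
      (fun t => pow_le_one₀ (hS.2.1 t).1 (hS.2.1 t).2) z hz
    refine le_trans ?_ h1
    refine lintegral_mono fun w => ENNReal.ofReal_le_ofReal ?_
    refine mul_le_mul_of_nonneg_right ?_ (ker_nn z w)
    split_ifs
    · exact le_refl _
    · exact sq_nonneg _
  let T : ℝ → ℝ≥0∞ := fun κ => ⨆ z ∈ B d, I d ω κ z
  have hTM : ∀ κ, T κ ≤ M := fun κ => iSup₂_le (hb κ)
  have hTt : ∀ κ, T κ ≠ ⊤ := fun κ => ne_top_of_le_ne_top hMt (hTM κ)
  have hTm : Monotone T := fun κ κ' h => iSup₂_mono fun z _ => I_mono d ω z h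
  refine ⟨fun κ => (T κ).toReal, ?_, ?_⟩
  · rw [Van, Metric.tendsto_nhds]
    intro ε hε
    obtain ⟨κ₀, hκ₀, h2⟩ := hT K ω hK hS hfin (ε / 2) (by positivity)
    have h3 : T κ₀ ≤ ENNReal.ofReal (ε / 2) := iSup₂_le h2
    have h4 : ∀ᶠ κ in 𝓝[>] (0 : ℝ), κ < κ₀ :=
      (gt_mem_nhds hκ₀).filter_mono nhdsWithin_le_nhds
    filter_upwards [h4] with κ hκ
    rw [Real.dist_0_eq_abs, abs_of_nonneg ENNReal.toReal_nonneg]
    have h5 : (T κ).toReal ≤ ε / 2 :=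
      ENNReal.toReal_le_of_le_ofReal (by positivity) ((hTm hκ.le).trans h3)
    linarith
  · intro κ _ z hz
    rw [ENNReal.ofReal_toReal (hTt κ)]
    exact le_iSup₂ (f := fun z _ => I d ω κ z) z hz

end Pool.Agent.N526.RM
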